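import Pool.Agent.Lib_MP_2c424f_cor.Z02

/-!
# MP_2c424f_pr: `q_c(d) ≥ d / (20000 log d)`
-/

set_option autoImplicit false

namespace Pool.Agent.Results.MP_2c424f_pr.CornerOrder

open Pool.Agent.QC Pool.Agent.COR

/-- For all large `d`: `q_c(d) ≥ d / (20000 log d)`.  In detail, for every even `q ≥ 4` with
`10000 q log d ≤ d` the uniform proper `q`-colourings of the boxes of `ℤ^d` have long-range order:
`D_{q,d}(L)` does not tend to `0`, and it is bounded below by a positive constant along the boxes of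
side `L = 2 d^33 2^K - 1`, `K ≥ 1`. -/
theorem result : ∃ d₀ : ℕ, ∀ d : ℕ, d₀ ≤ d →
    (d : ℝ) / (20000 * Real.log d) ≤ (qc d : ℝ) ∧
    ∀ q : ℕ, 4 ≤ q → Even q → (q : ℝ) * (10000 * Real.log d) ≤ d →
      LRO q d ∧
      ∃ c : ℝ, 0 < c ∧ ∀ K : ℕ, 1 ≤ K → c ≤ Dq q d (2 * d ^ 33 * 2 ^ K - 2) := by
  obtain ⟨d₁, h1⟩ := corner_pos
  obtain ⟨d₂, h2⟩ := corner_lro
  obtain ⟨d₃, h3⟩ := qc_ge
  refine ⟨max d₁ (max d₂ d₃), fun d hd => ⟨?_, ?_⟩⟩
  · exact h3 d ((le_max_right _ _).trans ((le_max_right _ _).trans hd))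
  · intro q hq4 hqe hq
    refine ⟨h2 d ((le_max_left _ _).trans ((le_max_right _ _).trans hd)) q ⟨hq4, hqe, hq⟩, ?_⟩
    exact h1 d ((le_max_left _ _).trans hd) q ⟨hq4, hqe, hq⟩

end Pool.Agent.Results.MP_2c424f_pr.CornerOrder
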