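import Pool.Agent.Lib_MP_2c424f_fb.MainG

/-!
# MP_2c424f_pr: long-range order in the free boxes for all `q ≤ d / (4000 log d)`
-/

set_option autoImplicit false

open Finset

namespace Pool.Agent.Results.MP_2c424f_pr.FreeBoxes

open Pool.Agent.QC

/-- the sites of the box `{0, …, n}^d` at an even distance from the corner `0` -/
noncomputable def evenSites (d n : ℕ) : Finset (Bx d n) := univ.filter fun x => Even (∑ i, (x i).val)

/-- the sites of the box `{0, …, n}^d` at an odd distance from the corner `0` -/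
noncomputable def oddSites (d n : ℕ) : Finset (Bx d n) := univ.filter fun x => Odd (∑ i, (x i).val)

/-- `P(f x = f y)` for the uniform proper `q`-colouring `f` of the box `{0, …, n}^d` (free boundary,
as in the definition of `D_{q,d}(n+1)`) -/
noncomputable def boxPr (d n q : ℕ) (x y : Bx d n) : ℝ :=
  (cnt (fun f : Bx d n → Fin q => Proper (BG d n) f ∧ f x = f y) : ℝ) /
    cnt (fun f : Bx d n → Fin q => Proper (BG d n) f)

/-- mean of `P(f x = f y)` over the pairs `x ∈ A`, `y ∈ B` -/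
noncomputable def meanPr (d n q : ℕ) (A B : Finset (Bx d n)) : ℝ :=
  (∑ x ∈ A, ∑ y ∈ B, boxPr d n q x y) / ((A.card : ℝ) * B.card)

/-- There is `d₀` such that for all `d ≥ d₀` and all `q ≥ 2` which are even or at least `41` with
`q · 4000 log d ≤ d`:

* for all large `k`, in the box `{0, …, 2^(k+1)}^d` with free boundary, the mean of `P(f x = f y)` over
  all pairs of sites of the same parity class (for each of the two classes) is at least
  `(19/20)/⌈q/2⌉`, and its mean over the pairs of different parity is at most `1/(20 q)`;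
* the mean of `P(f x = f y) - 1/q` over the pairs of sites of the box `{0, …, n}^d` in the parity class of
  the corners `0` does not tend to `0` as `n → ∞`. -/
theorem result : ∃ d₀ : ℕ, ∀ d : ℕ, d₀ ≤ d → ∀ q : ℕ, 2 ≤ q → (Even q ∨ 41 ≤ q) →
    (q : ℝ) * (4000 * Real.log d) ≤ d →
    (∃ k₀ : ℕ, ∀ k : ℕ, k₀ ≤ k → ∀ n : ℕ, n = 2 ^ (k + 1) →
      19 / 20 / (((q + 1) / 2 : ℕ) : ℝ) ≤ meanPr d n q (evenSites d n) (evenSites d n) ∧
      19 / 20 / (((q + 1) / 2 : ℕ) : ℝ) ≤ meanPr d n q (oddSites d n) (oddSites d n) ∧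
      meanPr d n q (oddSites d n) (evenSites d n) ≤ 1 / (20 * (q : ℝ))) ∧
    ¬ Filter.Tendsto (fun n : ℕ => meanPr d n q (evenSites d n) (evenSites d n) - 1 / q)
      Filter.atTop (nhds 0) := by
  obtain ⟨D₀, h⟩ := Pool.Agent.LO.mainG
  refine ⟨D₀, ?_⟩
  intro d hd q hq hq' hqd
  obtain ⟨k₀, hk⟩ := h d hd q ⟨hq, hq', hqd⟩
  have hq2 : Pool.Agent.LO.q2 q = (q + 1) / 2 := by
    unfold Pool.Agent.LO.q2
    omega
  have key : ∀ k : ℕ, k₀ ≤ k → ∀ n : ℕ, n = 2 ^ (k + 1) →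
      19 / 20 / (((q + 1) / 2 : ℕ) : ℝ) ≤ meanPr d n q (evenSites d n) (evenSites d n) ∧
      19 / 20 / (((q + 1) / 2 : ℕ) : ℝ) ≤ meanPr d n q (oddSites d n) (oddSites d n) ∧
      meanPr d n q (oddSites d n) (evenSites d n) ≤ 1 / (20 * (q : ℝ)) := by
    intro k hkk n hn
    subst hn
    obtain ⟨h1, h2, h3⟩ := hk k hkk
    rw [hq2] at h1 h2
    rw [div_div]
    exact ⟨h2, h1, h3⟩
  refine ⟨⟨k₀, key⟩, ?_⟩
  intro hT
  have hq0 : (0 : ℝ) < q := by
    have : 0 < q := by omega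
    exact_mod_cast this
  set δ : ℝ := 19 / 20 / (((q + 1) / 2 : ℕ) : ℝ) - 1 / q with hδ
  have hδ0 : 0 < δ := by
    have h1 : 1 ≤ (q + 1) / 2 := by omega
    have h1' : (0 : ℝ) < (((q + 1) / 2 : ℕ) : ℝ) := by exact_mod_cast h1
    have h2 : 2 * ((q + 1) / 2) ≤ q + 1 := by omega
    have h2' : 2 * (((q + 1) / 2 : ℕ) : ℝ) ≤ q + 1 := by exact_mod_cast h2
    have hq2' : (2 : ℝ) ≤ q := by exact_mod_cast hq
    rw [hδ, sub_pos, div_lt_div_iff₀ hq0 h1']
    linarith
  have hev : ∀ᶠ n : ℕ in Filter.atTop,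
      meanPr d n q (evenSites d n) (evenSites d n) - 1 / q < δ :=
    hT.eventually (gt_mem_nhds hδ0)
  obtain ⟨n₀, hn₀⟩ := Filter.eventually_atTop.1 hev
  have h1 := hn₀ (2 ^ (max k₀ n₀ + 1)) (by
    calc n₀ ≤ max k₀ n₀ + 1 := (le_max_right _ _).trans (Nat.le_succ _)
      _ ≤ 2 ^ (max k₀ n₀ + 1) := Nat.lt_two_pow_self.le)
  have h2 := (key (max k₀ n₀) (le_max_left _ _) _ rfl).1
  rw [hδ] at h1
  linarith

end Pool.Agent.Results.MP_2c424f_pr.FreeBoxes
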